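import Pool.Agent.K1H14.SD.Stm
import Pool.Agent.K1H14.SD.Defs
import Pool.Agent.K1H14.KS.EDefs

/-!
# Project SE: interface (statements of the pieces), rank two modulo four

`C` is (abstractly) the Clifford algebra of a complex quadratic space of dimension `d`, two modulo
four, `M K` (for `K ⊆ {1..d}`) the product of the `e i`, `i ∈ K` (`e i` orthonormal), `st` the
canonical involution.  `M univ` anticommutes with the `e i` and is central in the even part.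
-/

namespace Pool.Agent.K1H14.SE

open Pool.Agent.K1H14.KS Pool.Agent.K1H14.SD CliffordAlgebra

open scoped symmDiff

universe u

/-- the Clifford algebra of a quadratic space of dimension two modulo four, by its monomials -/
structure FullCl {C : Type u} [Ring C] [Algebra ℂ C] {d : ℕ} (M : Finset (Fin d) → C)
    (st : C →ₗ[ℂ] C) : Prop where
  dim : d % 4 = 2
  ne : (1 : C) ≠ 0
  one : M ∅ = 1
  mul : ∀ K L : Finset (Fin d), ∃ ε : ℂ, (ε = 1 ∨ ε = -1) ∧ M K * M L = ε • M (K ∆ L)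
  comm : ∀ K L : Finset (Fin d),
    M K * M L = (-1 : ℂ) ^ (K.card * L.card + (K ∩ L).card) • (M L * M K)
  st_M : ∀ K : Finset (Fin d), st (M K) = (-1 : ℂ) ^ (K.card * (K.card - 1) / 2) • M K
  st_inv : ∀ K : Finset (Fin d), st (M K) * M K = 1
  st_mul : ∀ x y : C, st (x * y) = st y * st x
  st_st : ∀ x : C, st (st x) = x
  span : ∀ x : C, x ∈ Submodule.span ℂ {x | ∃ K : Finset (Fin d), x = M K}

/-- the even part -/
def EvS {C : Type u} [Ring C] [Algebra ℂ C] {d : ℕ} (M : Finset (Fin d) → C) : Submodule ℂ C :=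
  Submodule.span ℂ {x | ∃ K : Finset (Fin d), Even K.card ∧ x = M K}

/-- the trace -/
def IsTrF {C : Type u} [Ring C] [Algebra ℂ C] {d : ℕ} (M : Finset (Fin d) → C)
    (tr : C →ₗ[ℂ] ℂ) : Prop :=
  (∀ K : Finset (Fin d), tr (M K) = if K = ∅ then 1 else 0) ∧ ∀ x y, tr (x * y) = tr (y * x)

def S_FTR : Prop := ∀ {C : Type u} [Ring C] [Algebra ℂ C] {d : ℕ} (M : Finset (Fin d) → C)
  (st : C →ₗ[ℂ] C), FullCl M st → FiniteDimensional ℂ C ∧ ∃ tr : C →ₗ[ℂ] ℂ, IsTrF M tr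

/-- a space of skew even elements stable under the `[M L, ·]`, `#L = 2`, is spanned by monomials -/
def S_SKEW : Prop := ∀ {C : Type u} [Ring C] [Algebra ℂ C] {d : ℕ} (M : Finset (Fin d) → C)
  (st : C →ₗ[ℂ] C) (N : Submodule ℂ C), FullCl M st → (∀ x ∈ N, x ∈ EvS M) →
  (∀ x ∈ N, st x = -x) →
  (∀ K : Finset (Fin d), K.card = 2 → ∀ x ∈ N, M K * x - x * M K ∈ N) →
  ∀ x ∈ N, x ∈ Submodule.span ℂ {x | ∃ K : Finset (Fin d), K.card % 4 = 2 ∧ M K ∈ N ∧ x = M K}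

def S_CMB3 : Prop := ∀ (d : ℕ) (P : Finset (Fin d) → Prop), d % 4 = 2 →
  (∀ K : Finset (Fin d), K.card = 2 → P K) →
  (∀ K L : Finset (Fin d), P K → P L → Odd (K ∩ L).card → P (K ∆ L)) →
  (∀ K : Finset (Fin d), P K → K.card % 4 = 2) →
  (∃ K : Finset (Fin d), P K ∧ K.card ≠ 2 ∧ K.card ≠ d) →
  ∀ L : Finset (Fin d), L.card % 4 = 2 → L.card ≠ d → P L

def S_LIEE : Prop := ∀ {C : Type u} [Ring C] [Algebra ℂ C] {d : ℕ} (M : Finset (Fin d) → C)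
  (st : C →ₗ[ℂ] C) (tr : C →ₗ[ℂ] ℂ) (N : Submodule ℂ C), FullCl M st → IsTrF M tr →
  (∀ x ∈ N, x ∈ EvS M) → (∀ K : Finset (Fin d), K.card = 2 → M K ∈ N) →
  (∀ x ∈ N, ∀ y ∈ N, x * y - y * x ∈ N) → (∀ x ∈ N, st x = -x) →
  (∃ x ∈ EvS M, st x = -x ∧ tr (x * M Finset.univ) = 0 ∧ x ∉ N) →
  ∀ x ∈ N, x ∈ Lev M 2 ⊔ Lev M d

def S_NRM : Prop := ∀ {C : Type u} [Ring C] [Algebra ℂ C] {d : ℕ} (M : Finset (Fin d) → C)
  (st : C →ₗ[ℂ] C) (N : Submodule ℂ C) (y : C), FullCl M st → 6 ≤ d → y ∈ EvS M →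
  st y * y = 1 → y * st y = 1 → (∀ K : Finset (Fin d), K.card = 2 → M K ∈ N) →
  (∀ x ∈ N, x ∈ Lev M 2 ⊔ Lev M d) → (∀ x ∈ N, y * x * st y ∈ N) →
  (∀ x ∈ N, st y * x * y ∈ N) →
  (∀ x ∈ Lev M 2, y * x * st y ∈ Lev M 2) ∧ ∀ x ∈ Lev M 2, st y * x * y ∈ Lev M 2

def S_VEC2 : Prop := ∀ {C : Type u} [Ring C] [Algebra ℂ C] {d : ℕ} (M : Finset (Fin d) → C)
  (st : C →ₗ[ℂ] C) (y : C), FullCl M st → 6 ≤ d → y ∈ EvS M → st y * y = 1 → y * st y = 1 →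
  (∀ x ∈ Lev M 2, y * x * st y ∈ Lev M 2) → (∀ x ∈ Lev M 2, st y * x * y ∈ Lev M 2) →
  ∃ (a c : ℂ) (ξ : C), ξ = a • (1 : C) + c • M Finset.univ ∧ st ξ * ξ = 1 ∧ ξ * st ξ = 1 ∧
    ∀ v ∈ Lev M 1, (st ξ * y) * v * st (st ξ * y) ∈ Lev M 1

/-! ### the Clifford algebra -/

/-- the product of the `b i`, `i ∈ K`, in increasing order -/
noncomputable def MF {T : Type u} [AddCommGroup T] [Module ℂ T] {Q : QuadraticForm ℂ T} {d : ℕ}
    (b : Module.Basis (Fin d) ℂ T) (K : Finset (Fin d)) : CliffordAlgebra Q :=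
  mono (fun i => ι Q (b i)) (K.sort (· ≤ ·))

def S_LF1 : Prop := ∀ {T : Type u} [AddCommGroup T] [Module ℂ T] (Q : QuadraticForm ℂ T) (d : ℕ)
  (b : Module.Basis (Fin d) ℂ T), d % 4 = 2 → ONB Q b →
  FullCl (MF (Q := Q) b) (reverse (Q := Q)) ∧
    (∀ x : CliffordAlgebra Q, x ∈ EvS (MF (Q := Q) b) ↔ x ∈ CliffordAlgebra.even Q) ∧
    ∀ x : CliffordAlgebra Q, x ∈ Lev (MF (Q := Q) b) 1 ↔ ∃ v : T, x = ι Q v

/-- balanced: invariant under the central elements of norm one -/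
def IsBal {T : Type u} [AddCommGroup T] [Module ℂ T] {Q : QuadraticForm ℂ T} {n : ℕ}
    (f : WForm Q n) : Prop :=
  ∀ z : W Q, IsCentralNormOne z → Fixes (LinearMap.mulLeft ℂ z) f

/-- `x` is skew, and a linear combination of commutators of elements of `C⁺(T)` -/
def IsTestE {T : Type u} [AddCommGroup T] [Module ℂ T] {Q : QuadraticForm ℂ T} (x : W Q) : Prop :=
  reverse (x : CliffordAlgebra Q) = -(x : CliffordAlgebra Q) ∧
    x ∈ Submodule.span ℂ {c : W Q | ∃ a b : W Q, c = a * b - b * a}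

def S_CONVE : Prop := ∀ {T : Type u} [AddCommGroup T] [Module ℂ T] (Q : QuadraticForm ℂ T),
  (∀ t : T, (∀ s : T, QuadraticMap.polar Q s t = 0) → t = 0) → Module.finrank ℂ T % 4 = 2 →
  10 ≤ Module.finrank ℂ T →
  ∃ (f : WForm Q 4) (x : W Q), IsTate f ∧ IsBal f ∧ IsTestE x ∧
    ¬ Kills (LinearMap.mulLeft ℂ x) f

end Pool.Agent.K1H14.SE
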