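import Pool.Agent.K1H14.SD.Tate
import Pool.Agent.K1H14.SD.Asm4
import Pool.Agent.K1H14.SE.Stm
import Pool.Agent.K1H4.SE.Ftr
import Pool.Agent.K1H38.SE.Cmb3
import Pool.Agent.K1H10.SE.Skew
import Pool.Agent.K1H89.SE.LIEE
import Pool.Agent.K1H72.SE.NRM
import Pool.Agent.K1H69.SE.Vec2
import Pool.Agent.K1H28.SE.LF1
import Pool.Agent.K1H99.SE.Conve

/-!
# Project SE: assembly
-/

namespace Pool.Agent.K1H14.SE

open Pool.Agent.K1H14.KS Pool.Agent.K1H14.SD CliffordAlgebra

universe u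

section gen

variable {C : Type u} [Ring C] [Algebra ℂ C] {d : ℕ} {M : Finset (Fin d) → C} {st : C →ₗ[ℂ] C}

/-- `M univ` commutes with the even elements -/
lemma om_comm (h : FullCl M st) {x : C} (hx : x ∈ EvS M) :
    M Finset.univ * x = x * M Finset.univ := by
  refine Submodule.span_induction (p := fun x _ => M Finset.univ * x = x * M Finset.univ)
    ?_ ?_ ?_ ?_ hx
  · rintro z ⟨K, hK, rfl⟩
    have h1 := h.comm K Finset.univ
    rw [Finset.inter_univ, Finset.card_univ, Fintype.card_fin] at h1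
    have h2 : Even (K.card * d + K.card) := by
      obtain ⟨k, hk⟩ := hK
      exact ⟨k * d + k, by rw [hk]; ring⟩
    rw [h2.neg_one_pow, one_smul] at h1
    exact h1.symm
  · rw [mul_zero, zero_mul]
  · intro x y _ _ hx hy
    rw [mul_add, add_mul, hx, hy]
  · intro a x _ hx
    rw [mul_smul_comm, smul_mul_assoc, hx]

end gen

section cl

variable {T : Type u} [AddCommGroup T] [Module ℂ T] {Q : QuadraticForm ℂ T}
  {A : ∀ n : ℕ, Submodule ℂ (WForm Q n)}

/-- the image of the Lie algebra in the Clifford algebra -/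
noncomputable def NN (A : ∀ n : ℕ, Submodule ℂ (WForm Q n)) : Submodule ℂ (CliffordAlgebra Q) :=
  (LieC A).map (CliffordAlgebra.even Q).val.toLinearMap

lemma mem_NN {x : CliffordAlgebra Q} :
    x ∈ NN A ↔ ∃ w : W Q, w ∈ LieC A ∧ (w : CliffordAlgebra Q) = x := by
  unfold NN
  rw [Submodule.mem_map]
  rfl

lemma coe_mem_NN {w : W Q} : (w : CliffordAlgebra Q) ∈ NN A ↔ w ∈ LieC A := by
  rw [mem_NN]
  constructor
  · rintro ⟨w', h, e⟩
    rwa [← Subtype.ext e]
  · intro h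
    exact ⟨w, h, rfl⟩

lemma two_set {d : ℕ} {b : Module.Basis (Fin d) ℂ T} (hb : ONB Q b) (hA : IsMotivicW A)
    {K : Finset (Fin d)} (hK : K.card = 2) : MF (Q := Q) b K ∈ NN A := by
  obtain ⟨p, q, hpq⟩ : ∃ p q, K.sort (· ≤ ·) = [p, q] := by
    apply List.length_eq_two.mp
    rw [Finset.length_sort, hK]
  have hne : p ≠ q := by
    have hnd : (K.sort (· ≤ ·)).Nodup := Finset.sort_nodup _ _
    rw [hpq] at hnd
    simpa using hnd
  have h1 : MF (Q := Q) b K = ((pairW Q (b p) (b q) : W Q) : CliffordAlgebra Q) := by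
    unfold MF
    rw [hpq, mono_cons, mono_cons, mono_nil, mul_one]
    rfl
  rw [h1, coe_mem_NN]
  intro n f hf
  exact (hA.1 n f hf).2 _ _ (isLiePair_wedge _ _ (hb.orth p q hne))

/-- **one class not killed by a test element gives all balanced Tate classes** -/
theorem tateE (hQ : ∀ t : T, (∀ s : T, QuadraticMap.polar Q s t = 0) → t = 0)
    (hd : Module.finrank ℂ T % 4 = 2) (h6 : 6 ≤ Module.finrank ℂ T) (hA : IsMotivicW A)
    (hX : ∃ (n : ℕ) (f : WForm Q n) (x : W Q), f ∈ A n ∧ IsTestE x ∧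
      ¬ Kills (LinearMap.mulLeft ℂ x) f) :
    ∀ (n : ℕ) (f : WForm Q n), IsTate f → IsBal f → f ∈ A n := by
  have hfdT : FiniteDimensional ℂ T := FiniteDimensional.of_finrank_pos (by omega)
  obtain ⟨e, he⟩ := exists_onb (Q := Q) hQ
  obtain ⟨hE, hev, hlev1⟩ := Pool.Agent.K1H28.SE.t_LF1 Q _ e hd he
  obtain ⟨hfdC, tr, htr⟩ := Pool.Agent.K1H4.SE.t_FTR _ _ hE
  have hfdW : FiniteDimensional ℂ (W Q) := FiniteDimensional.of_injective
    (CliffordAlgebra.even Q).val.toLinearMap Subtype.val_injective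
  set M := MF (Q := Q) e with hM
  have h2 : ∀ K : Finset (Fin (Module.finrank ℂ T)), K.card = 2 → M K ∈ NN A :=
    fun K hK => two_set he hA hK
  have hNev : ∀ x ∈ NN A, x ∈ EvS M := by
    intro x hx
    obtain ⟨w, -, rfl⟩ := mem_NN.mp hx
    exact (hev _).mpr w.2
  have hNsk : ∀ x ∈ NN A, reverse x = -x := by
    intro x hx
    obtain ⟨w, hw, rfl⟩ := mem_NN.mp hx
    have h := congrArg (fun w : W Q => (w : CliffordAlgebra Q)) (LieC_skew hA hw)
    simpa [rv_coe] using h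
  have hNbr : ∀ x ∈ NN A, ∀ y ∈ NN A, x * y - y * x ∈ NN A := by
    intro x hx y hy
    obtain ⟨w, hw, rfl⟩ := mem_NN.mp hx
    obtain ⟨w', hw', rfl⟩ := mem_NN.mp hy
    exact mem_NN.mpr ⟨_, LieC_bracket hw hw', rfl⟩
  have hω : M Finset.univ ∈ CliffordAlgebra.even Q := by
    rw [← hev]
    refine Submodule.subset_span ⟨Finset.univ, ?_, rfl⟩
    rw [Finset.card_univ, Fintype.card_fin]
    exact Nat.even_iff.mpr (by omega)
  have hωc : ∀ w : W Q, M Finset.univ * (w : CliffordAlgebra Q) = w * M Finset.univ :=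
    fun w => om_comm hE ((hev _).mpr w.2)
  have hN : ∀ x ∈ NN A, x ∈ Lev M 2 ⊔ Lev M (Module.finrank ℂ T) := by
    refine Pool.Agent.K1H89.SE.t_LIEE Pool.Agent.K1H10.SE.t_SKEW Pool.Agent.K1H38.SE.t_CMB3 M _ tr
      (NN A) hE htr hNev h2 hNbr hNsk ?_
    obtain ⟨n, f, x, hf, ⟨hx1, hx2⟩, hx3⟩ := hX
    refine ⟨(x : CliffordAlgebra Q), (hev _).mpr x.2, hx1, ?_, fun h => hx3 (coe_mem_NN.mp h n f hf)⟩
    refine Submodule.span_induction
      (p := fun (x : W Q) _ => tr ((x : CliffordAlgebra Q) * M Finset.univ) = 0) ?_ ?_ ?_ ?_ hx2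
    · rintro z ⟨a, b, rfl⟩
      show tr (((a : CliffordAlgebra Q) * b - b * a) * M Finset.univ) = 0
      rw [sub_mul, map_sub, sub_eq_zero, mul_assoc, htr.2, mul_assoc, mul_assoc, ← hωc a]
    · rw [ZeroMemClass.coe_zero, zero_mul, map_zero]
    · intro x y _ _ hx hy
      show tr (((x : CliffordAlgebra Q) + y) * M Finset.univ) = 0
      rw [add_mul, map_add, hx, hy, add_zero]
    · intro a x _ hx
      show tr ((a • (x : CliffordAlgebra Q)) * M Finset.univ) = 0
      rw [smul_mul_assoc, map_smul, hx, smul_zero]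
  intro n f hf hbal
  apply hA.2.2
  intro g hg
  -- `g` is the left multiplication by `y`
  set y := g 1 with hy
  have key : ∀ w w' : W Q, rv Q (g w) * g w' = rv Q w * w' := by
    intro w w'
    apply Subtype.ext
    rw [← sub_eq_zero, ← Module.forall_dual_apply_eq_zero_iff ℂ]
    intro μ
    obtain ⟨f', hf', h⟩ := hA.2.1 μ
    have h1 := hg 2 f' hf' ![w, w']
    rw [h, h] at h1
    rw [map_sub, sub_eq_zero]
    exact h1
  have hyy : rv Q y * y = 1 := by
    have := key 1 1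
    rwa [rv_one, one_mul] at this
  have hyy' : y * rv Q y = 1 := inv_comm hyy
  have hgy : ∀ w, g w = y * w := by
    intro w
    have h1 := key 1 w
    rw [rv_one, one_mul] at h1
    calc g w = (y * rv Q y) * g w := by rw [hyy', one_mul]
      _ = y * (rv Q y * g w) := mul_assoc _ _ _
      _ = y * w := by rw [h1]
  have hgl : (g : W Q →ₗ[ℂ] W Q) = LinearMap.mulLeft ℂ y := by
    ext w; simp [hgy]
  have hgs : ∀ w, g.symm w = rv Q y * w := by
    intro w
    rw [LinearEquiv.symm_apply_eq, hgy, ← mul_assoc, hyy', one_mul]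
  have hgsl : (g.symm : W Q →ₗ[ℂ] W Q) = LinearMap.mulLeft ℂ (rv Q y) := by
    ext w; simp [hgs]
  -- `y` normalises the Lie algebra
  have hnorm : ∀ x, x ∈ LieC A → y * x * rv Q y ∈ LieC A := by
    intro x hx m f' hf'
    have h1 := (hx m f' hf').conj (hg m f' hf')
    have h2 : (g : W Q →ₗ[ℂ] W Q) ∘ₗ LinearMap.mulLeft ℂ x ∘ₗ (g.symm : W Q →ₗ[ℂ] W Q) =
        LinearMap.mulLeft ℂ (y * x * rv Q y) := by
      rw [hgl, hgsl]
      ext w; simp [mul_assoc]
    rwa [h2] at h1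
  have hg' : ∀ m, ∀ f' ∈ A m, Fixes (g.symm : W Q →ₗ[ℂ] W Q) f' := fun m f' hf' =>
    (hg m f' hf').symm
  have hnorm' : ∀ x, x ∈ LieC A → rv Q y * x * y ∈ LieC A := by
    intro x hx m f' hf'
    have h1 := (hx m f' hf').conj (g := g.symm) (hg' m f' hf')
    have h2 : (g.symm : W Q →ₗ[ℂ] W Q) ∘ₗ LinearMap.mulLeft ℂ x ∘ₗ
        (g.symm.symm : W Q →ₗ[ℂ] W Q) = LinearMap.mulLeft ℂ (rv Q y * x * y) := by
      rw [LinearEquiv.symm_symm, hgl, hgsl]
      ext w; simp [mul_assoc]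
    rwa [h2] at h1
  have hyc : reverse (y : CliffordAlgebra Q) * (y : CliffordAlgebra Q) = 1 := by
    have h := congrArg (fun w : W Q => (w : CliffordAlgebra Q)) hyy
    exact h
  have hyc' : (y : CliffordAlgebra Q) * reverse (y : CliffordAlgebra Q) = 1 := by
    have h := congrArg (fun w : W Q => (w : CliffordAlgebra Q)) hyy'
    exact h
  obtain ⟨hn1, hn2⟩ := Pool.Agent.K1H72.SE.t_NRM M _ (NN A) (y : CliffordAlgebra Q) hE h6
    ((hev _).mpr y.2) hyc hyc' h2 hN
    (by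
      intro x hx
      obtain ⟨w, hw, rfl⟩ := mem_NN.mp hx
      exact mem_NN.mpr ⟨_, hnorm w hw, rfl⟩)
    (by
      intro x hx
      obtain ⟨w, hw, rfl⟩ := mem_NN.mp hx
      exact mem_NN.mpr ⟨_, hnorm' w hw, rfl⟩)
  obtain ⟨a, c, ξ, hξ, hξ1, hξ2, hξv⟩ := Pool.Agent.K1H69.SE.t_VEC2 Pool.Agent.K1H4.SE.t_FTR M _
    (y : CliffordAlgebra Q) hE h6 ((hev _).mpr y.2) hyc hyc' hn1 hn2
  have hξe : ξ ∈ CliffordAlgebra.even Q := by
    rw [hξ]
    exact Subalgebra.add_mem _ (Subalgebra.smul_mem _ (Subalgebra.one_mem _) _)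
      (Subalgebra.smul_mem _ hω _)
  set z : W Q := ⟨ξ, hξe⟩ with hz
  have hzc : IsCentralNormOne z := by
    refine ⟨fun w => Subtype.ext ?_, hξ1⟩
    show ξ * (w : CliffordAlgebra Q) = w * ξ
    rw [hξ, add_mul, mul_add, smul_mul_assoc, mul_smul_comm, smul_mul_assoc, mul_smul_comm,
      one_mul, mul_one, hωc]
  have hs : ∃ t : T →ₗ[ℂ] T, IsSpinPair (rv Q z * y) t := by
    have hcoe : ((rv Q z * y : W Q) : CliffordAlgebra Q) = reverse ξ * (y : CliffordAlgebra Q) :=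
      rfl
    have hex : ∀ v : T, ∃ v' : T, (reverse ξ * (y : CliffordAlgebra Q)) * ι Q v *
        reverse (reverse ξ * (y : CliffordAlgebra Q)) = ι Q v' := fun v =>
      (hlev1 _).mp (hξv _ ((hlev1 _).mpr ⟨v, rfl⟩))
    choose t ht using hex
    refine ⟨e.constr ℂ (fun j => t (e j)), ?_, ?_⟩
    · rw [hcoe, reverse.map_mul, reverse_reverse]
      calc reverse (y : CliffordAlgebra Q) * ξ * (reverse ξ * (y : CliffordAlgebra Q))
          = reverse (y : CliffordAlgebra Q) * (ξ * reverse ξ) * (y : CliffordAlgebra Q) := by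
            simp only [mul_assoc]
        _ = 1 := by rw [hξ2, mul_one, hyc]
    · have h1 : (LinearMap.mulRight ℂ (reverse (reverse ξ * (y : CliffordAlgebra Q)))).comp
          ((LinearMap.mulLeft ℂ (reverse ξ * (y : CliffordAlgebra Q))).comp (ι Q)) =
          (ι Q).comp (e.constr ℂ (fun j => t (e j))) := by
        refine e.ext fun j => ?_
        show (reverse ξ * (y : CliffordAlgebra Q)) * ι Q (e j) *
          reverse (reverse ξ * (y : CliffordAlgebra Q)) = ι Q (e.constr ℂ (fun j => t (e j)) (e j))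
        rw [Module.Basis.constr_basis]
        exact ht (e j)
      intro v
      rw [hcoe]
      exact LinearMap.congr_fun h1 v
  obtain ⟨t, ht⟩ := hs
  rw [hgl]
  have hyz : y = z * (rv Q z * y) := by
    apply Subtype.ext
    show (y : CliffordAlgebra Q) = ξ * (reverse ξ * (y : CliffordAlgebra Q))
    rw [← mul_assoc, hξ2, one_mul]
  rw [hyz]
  exact Fixes_mul (hbal z hzc) (hf.1 _ t ht)

/-- **the equivalence** -/
theorem tateE_iff (hQ : ∀ t : T, (∀ s : T, QuadraticMap.polar Q s t = 0) → t = 0)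
    (hd : Module.finrank ℂ T % 4 = 2) (h10 : 10 ≤ Module.finrank ℂ T) (hA : IsMotivicW A) :
    (∃ (n : ℕ) (f : WForm Q n) (x : W Q), f ∈ A n ∧ IsTestE x ∧
      ¬ Kills (LinearMap.mulLeft ℂ x) f) ↔
    ∀ (n : ℕ) (f : WForm Q n), IsTate f → IsBal f → f ∈ A n := by
  constructor
  · intro hX
    exact tateE hQ hd (by omega) hA hX
  · intro h
    obtain ⟨f, x, hf, hb, hx, hk⟩ := Pool.Agent.K1H99.SE.t_CONVE Pool.Agent.K1H28.SE.t_LF1
      Pool.Agent.K1H4.SE.t_FTR Q hQ hd h10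
    exact ⟨4, f, x, h 4 f hf hb, hx, hk⟩

end cl

end Pool.Agent.K1H14.SE
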