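import Pool.Agent.K1H14.SE.Asm

/-!
# Project SE: assembly, part 2 (the Lie algebra)
-/

namespace Pool.Agent.K1H14.SE

open Pool.Agent.K1H14.KS Pool.Agent.K1H14.SD Pool.Agent.K1H69.SE CliffordAlgebra

universe u

section gen

variable {C : Type u} [Ring C] [Algebra ℂ C] {d : ℕ} {M : Finset (Fin d) → C} {st : C →ₗ[ℂ] C}

/-- central skew even elements are multiples of `M univ` -/
lemma central_skew (h : FullCl M st) {z : C} (hz : z ∈ EvS M) (hc : ∀ x ∈ EvS M, z * x = x * z)
    (hs : st z = -z) : z ∈ Lev M d := by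
  classical
  have hmem : ∀ x ∈ Submodule.span ℂ ({z} : Set C), ∃ a : ℂ, x = a • z := by
    intro x hx
    obtain ⟨a, rfl⟩ := Submodule.mem_span_singleton.mp hx
    exact ⟨a, rfl⟩
  have hK2 : ∀ K : Finset (Fin d), Even K.card → M K ∈ EvS M := fun K hK =>
    Submodule.subset_span ⟨K, hK, rfl⟩
  have h1 := Pool.Agent.K1H10.SE.t_SKEW M st (Submodule.span ℂ ({z} : Set C)) h
    (fun x hx => by obtain ⟨a, rfl⟩ := hmem x hx; exact Submodule.smul_mem _ _ hz)
    (fun x hx => by obtain ⟨a, rfl⟩ := hmem x hx; rw [map_smul, hs, smul_neg])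
    (fun K hK x hx => by
      obtain ⟨a, rfl⟩ := hmem x hx
      rw [mul_smul_comm, smul_mul_assoc, hc _ (hK2 K (by rw [hK]; decide)), sub_self]
      exact Submodule.zero_mem _)
    z (Submodule.mem_span_singleton_self z)
  refine Submodule.span_mono ?_ h1
  rintro x ⟨K, hK4, hKN, rfl⟩
  refine ⟨K, ?_, rfl⟩
  by_contra hKd
  obtain ⟨a, ha⟩ := hmem _ hKN
  have hcK : ∀ x ∈ EvS M, M K * x = x * M K := by
    intro x hx
    rw [ha, smul_mul_assoc, mul_smul_comm, hc x hx]
  have hne : K ≠ Finset.univ := by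
    rintro rfl
    exact hKd (by rw [Finset.card_univ, Fintype.card_fin])
  obtain ⟨j, hj⟩ : ∃ j, j ∉ K := by
    by_contra hcon
    push Not at hcon
    exact hne (Finset.eq_univ_iff_forall.mpr hcon)
  obtain ⟨i, hi⟩ : K.Nonempty := by
    rw [← Finset.card_pos]; omega
  have hij : i ≠ j := fun e => hj (e ▸ hi)
  have hL : ({i, j} : Finset (Fin d)).card = 2 := Finset.card_pair hij
  have hKL : K ∩ {i, j} = {i} := by
    ext k
    simp only [Finset.mem_inter, Finset.mem_insert, Finset.mem_singleton]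
    constructor
    · rintro ⟨hk, rfl | rfl⟩
      · rfl
      · exact absurd hk hj
    · rintro rfl
      exact ⟨hi, Or.inl rfl⟩
  have h2 := h.comm K {i, j}
  rw [hL, hKL, Finset.card_singleton, hcK _ (hK2 _ (by rw [hL]; decide))] at h2
  have h3 : (-1 : ℂ) ^ (K.card * 2 + 1) = -1 := by
    rw [pow_succ, mul_comm K.card 2, pow_mul]; simp
  rw [h3, neg_smul, one_smul] at h2
  have h4 : M {i, j} * M K = 0 := by
    have h5 : (2 : ℂ) • (M {i, j} * M K) = 0 := by
      rw [two_smul]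
      nth_rewrite 1 [h2]
      exact neg_add_cancel _
    exact (smul_eq_zero.mp h5).resolve_left two_ne_zero
  have h6 : M K = 0 := by
    calc M K = (st (M {i, j}) * M {i, j}) * M K := by rw [h.st_inv, one_mul]
      _ = 0 := by rw [mul_assoc, h4, mul_zero]
  have h7 := h.st_inv K
  rw [h6, mul_zero] at h7
  exact h.ne h7.symm

end gen

section cl

variable {T : Type u} [AddCommGroup T] [Module ℂ T] {Q : QuadraticForm ℂ T}
  {A : ∀ n : ℕ, Submodule ℂ (WForm Q n)}

/-- `z` is central in the even Clifford algebra and `z* = -z` -/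
def IsCentralSkew {Q : QuadraticForm ℂ T} (z : W Q) : Prop :=
  (∀ w : W Q, z * w = w * z) ∧ reverse (z : CliffordAlgebra Q) = -(z : CliffordAlgebra Q)

/-- the elements of level two are in the Lie algebra of `Spin(T)` -/
lemma lev2_pair {d : ℕ} {b : Module.Basis (Fin d) ℂ T} (hb : ONB Q b) {x : CliffordAlgebra Q}
    (hx : x ∈ Lev (MF (Q := Q) b) 2) :
    ∃ (w : W Q) (Y : T →ₗ[ℂ] T), (w : CliffordAlgebra Q) = x ∧ IsLiePair w Y := by
  refine Submodule.span_induction (p := fun x _ =>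
    ∃ (w : W Q) (Y : T →ₗ[ℂ] T), (w : CliffordAlgebra Q) = x ∧ IsLiePair w Y) ?_ ?_ ?_ ?_ hx
  · rintro z ⟨K, hK, rfl⟩
    obtain ⟨p, q, hpq⟩ : ∃ p q, K.sort (· ≤ ·) = [p, q] := by
      apply List.length_eq_two.mp
      rw [Finset.length_sort, hK]
    have hne : p ≠ q := by
      have hnd : (K.sort (· ≤ ·)).Nodup := Finset.sort_nodup _ _
      rw [hpq] at hnd
      simpa using hnd
    refine ⟨pairW Q (b p) (b q), _, ?_, isLiePair_wedge _ _ (hb.orth p q hne)⟩
    unfold MF
    rw [hpq, mono_cons, mono_cons, mono_nil, mul_one]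
    rfl
  · refine ⟨0, 0, rfl, ?_, ?_⟩
    · rw [ZeroMemClass.coe_zero, map_zero, add_zero]
    · intro v
      rw [ZeroMemClass.coe_zero, zero_mul, mul_zero, sub_zero, LinearMap.zero_apply, map_zero]
  · rintro x y _ _ ⟨w, Y, rfl, h1, h2⟩ ⟨w', Y', rfl, h1', h2'⟩
    refine ⟨w + w', Y + Y', rfl, ?_, ?_⟩
    · show reverse ((w : CliffordAlgebra Q) + (w' : CliffordAlgebra Q)) +
        ((w : CliffordAlgebra Q) + (w' : CliffordAlgebra Q)) = 0
      rw [map_add, add_add_add_comm, h1, h1', add_zero]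
    · intro v
      show ((w : CliffordAlgebra Q) + (w' : CliffordAlgebra Q)) * ι Q v -
        ι Q v * ((w : CliffordAlgebra Q) + (w' : CliffordAlgebra Q)) = _
      rw [add_mul, mul_add, add_sub_add_comm, h2, h2', LinearMap.add_apply, map_add]
  · rintro a x _ ⟨w, Y, rfl, h1, h2⟩
    refine ⟨a • w, a • Y, rfl, ?_, ?_⟩
    · show reverse (a • (w : CliffordAlgebra Q)) + a • (w : CliffordAlgebra Q) = 0
      rw [map_smul, ← smul_add, h1, smul_zero]
    · intro v
      show (a • (w : CliffordAlgebra Q)) * ι Q v - ι Q v * (a • (w : CliffordAlgebra Q)) = _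
      rw [smul_mul_assoc, mul_smul_comm, ← smul_sub, h2, LinearMap.smul_apply, map_smul]

/-- `M univ` is not in the Lie algebra of `Spin(T)` -/
lemma om_not_pair {d : ℕ} {b : Module.Basis (Fin d) ℂ T} (hd : d % 4 = 2) (h6 : 6 ≤ d)
    (hb : ONB Q b) {w : W Q} (hw : (w : CliffordAlgebra Q) = MF (Q := Q) b Finset.univ)
    (Y : T →ₗ[ℂ] T) : ¬ IsLiePair w Y := by
  rintro ⟨-, h2⟩
  obtain ⟨hE, hev, hlev1⟩ := Pool.Agent.K1H28.SE.t_LF1 Q d b hd hb
  obtain ⟨-, tr, htr⟩ := Pool.Agent.K1H4.SE.t_FTR _ _ hE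
  set M := MF (Q := Q) b with hM
  let i : Fin d := ⟨0, by omega⟩
  have hi : M {i} ∈ Lev M 1 := Submodule.subset_span ⟨{i}, Finset.card_singleton _, rfl⟩
  obtain ⟨v, hv⟩ := (hlev1 _).mp hi
  have h3 := h2 v
  rw [hw, ← hv, om_vec hE hi, sub_neg_eq_add, ← two_smul ℂ] at h3
  have h4 : (2 : ℂ) • (M Finset.univ * M {i}) ∈ FF M (fun k => k = d - 1) := by
    refine Submodule.smul_mem _ _ (om_FF hE (S := fun k => k = 1) ?_ ((lev_iff 1).mp hi))
    rintro k - rfl
    rfl
  have h5 : (2 : ℂ) • (M Finset.univ * M {i}) ∈ FF M (fun k => k = 1) := by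
    rw [h3]
    exact (lev_iff 1).mp ((hlev1 _).mpr ⟨_, rfl⟩)
  have h7 := FF_disj hE htr (fun k h h' => by
    have h1 : k = d - 1 := h
    have h2 : k = 1 := h'
    omega) h4 h5
  have h8 := (smul_eq_zero.mp h7).resolve_left two_ne_zero
  have h9 : M {i} = 0 := by
    calc M {i} = -((M Finset.univ * M Finset.univ) * M {i}) := by
          rw [om_sq hE, neg_mul, one_mul, neg_neg]
      _ = 0 := by rw [mul_assoc, h8, mul_zero, neg_zero]
  have h10 := hE.st_inv {i}
  rw [h9, mul_zero] at h10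
  exact hE.ne h10.symm

/-- one class not killed by a test element: the Lie algebra is small -/
lemma lie_sub {d : ℕ} {e : Module.Basis (Fin d) ℂ T} (hd : d % 4 = 2) (he : ONB Q e)
    (hA : IsMotivicW A)
    (hX : ∃ (n : ℕ) (f : WForm Q n) (x : W Q), f ∈ A n ∧ IsTestE x ∧
      ¬ Kills (LinearMap.mulLeft ℂ x) f) :
    ∀ x ∈ NN A, x ∈ Lev (MF (Q := Q) e) 2 ⊔ Lev (MF (Q := Q) e) d := by
  have hfdT : FiniteDimensional ℂ T := Module.Basis.finiteDimensional_of_finite e
  obtain ⟨hE, hev, hlev1⟩ := Pool.Agent.K1H28.SE.t_LF1 Q _ e hd he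
  obtain ⟨hfdC, tr, htr⟩ := Pool.Agent.K1H4.SE.t_FTR _ _ hE
  have hfdW : FiniteDimensional ℂ (W Q) := FiniteDimensional.of_injective
    (CliffordAlgebra.even Q).val.toLinearMap Subtype.val_injective
  set M := MF (Q := Q) e with hM
  have h2 : ∀ K : Finset (Fin d), K.card = 2 → M K ∈ NN A :=
    fun K hK => two_set he hA hK
  have hNev : ∀ x ∈ NN A, x ∈ EvS M := by
    intro x hx
    obtain ⟨w, -, rfl⟩ := mem_NN.mp hx
    exact (hev _).mpr w.2
  have hNsk : ∀ x ∈ NN A, reverse x = -x := by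
    intro x hx
    obtain ⟨w, hw, rfl⟩ := mem_NN.mp hx
    have h := congrArg (fun w : W Q => (w : CliffordAlgebra Q)) (LieC_skew hA hw)
    simpa [rv_coe] using h
  have hNbr : ∀ x ∈ NN A, ∀ y ∈ NN A, x * y - y * x ∈ NN A := by
    intro x hx y hy
    obtain ⟨w, hw, rfl⟩ := mem_NN.mp hx
    obtain ⟨w', hw', rfl⟩ := mem_NN.mp hy
    exact mem_NN.mpr ⟨_, LieC_bracket hw hw', rfl⟩
  have hωc : ∀ w : W Q, M Finset.univ * (w : CliffordAlgebra Q) = w * M Finset.univ :=
    fun w => om_comm hE ((hev _).mpr w.2)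
  refine Pool.Agent.K1H89.SE.t_LIEE Pool.Agent.K1H10.SE.t_SKEW Pool.Agent.K1H38.SE.t_CMB3 M _ tr
    (NN A) hE htr hNev h2 hNbr hNsk ?_
  obtain ⟨n, f, x, hf, ⟨hx1, hx2⟩, hx3⟩ := hX
  refine ⟨(x : CliffordAlgebra Q), (hev _).mpr x.2, hx1, ?_, fun h => hx3 (coe_mem_NN.mp h n f hf)⟩
  refine Submodule.span_induction
    (p := fun (x : W Q) _ => tr ((x : CliffordAlgebra Q) * M Finset.univ) = 0) ?_ ?_ ?_ ?_ hx2
  · rintro z ⟨a, b, rfl⟩
    show tr (((a : CliffordAlgebra Q) * b - b * a) * M Finset.univ) = 0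
    rw [sub_mul, map_sub, sub_eq_zero, mul_assoc, htr.2, mul_assoc, mul_assoc, ← hωc a]
  · rw [ZeroMemClass.coe_zero, zero_mul, map_zero]
  · intro x y _ _ hx hy
    show tr (((x : CliffordAlgebra Q) + y) * M Finset.univ) = 0
    rw [add_mul, map_add, hx, hy, add_zero]
  · intro a x _ hx
    show tr ((a • (x : CliffordAlgebra Q)) * M Finset.univ) = 0
    rw [smul_mul_assoc, map_smul, hx, smul_zero]

/-- **two classes give the Lie algebra** -/
theorem tateE_lie (hQ : ∀ t : T, (∀ s : T, QuadraticMap.polar Q s t = 0) → t = 0)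
    (hd : Module.finrank ℂ T % 4 = 2) (h10 : 10 ≤ Module.finrank ℂ T) (hA : IsMotivicW A) :
    ((∃ (n : ℕ) (f : WForm Q n) (x : W Q), f ∈ A n ∧ IsTestE x ∧
      ¬ Kills (LinearMap.mulLeft ℂ x) f) ∧
    ∃ (n : ℕ) (f : WForm Q n) (z : W Q), f ∈ A n ∧ IsCentralSkew z ∧
      ¬ Kills (LinearMap.mulLeft ℂ z) f) ↔
    ∀ x : W Q, (∀ (n : ℕ) (f : WForm Q n), f ∈ A n → Kills (LinearMap.mulLeft ℂ x) f) →
      ∃ Y : T →ₗ[ℂ] T, IsLiePair x Y := by
  have hfdT : FiniteDimensional ℂ T := FiniteDimensional.of_finrank_pos (by omega)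
  obtain ⟨e, he⟩ := exists_onb (Q := Q) hQ
  obtain ⟨hE, hev, hlev1⟩ := Pool.Agent.K1H28.SE.t_LF1 Q _ e hd he
  set M := MF (Q := Q) e with hM
  have hω : M Finset.univ ∈ CliffordAlgebra.even Q := by
    rw [← hev]
    refine Submodule.subset_span ⟨Finset.univ, ?_, rfl⟩
    rw [Finset.card_univ, Fintype.card_fin]
    exact Nat.even_iff.mpr (by omega)
  set o : W Q := ⟨M Finset.univ, hω⟩ with ho
  have hoc : IsCentralSkew o := by
    refine ⟨fun w => Subtype.ext (om_comm hE ((hev _).mpr w.2)), ?_⟩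
    exact om_st hE
  constructor
  · rintro ⟨hX, n, f, z, hf, ⟨hz1, hz2⟩, hzk⟩ x hx
    have hx' : x ∈ LieC A := fun n f hf => hx n f hf
    obtain ⟨u, hu, v, hv, huv⟩ := Submodule.mem_sup.mp (lie_sub hd he hA hX x (coe_mem_NN.mpr hx'))
    obtain ⟨c, rfl⟩ : ∃ c : ℂ, v = c • M Finset.univ := by
      have h1 : Lev M (Module.finrank ℂ T) ≤ Submodule.span ℂ {M Finset.univ} := by
        refine Submodule.span_mono ?_
        rintro x ⟨K, hK, rfl⟩
        have : K = Finset.univ := by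
          rw [← Finset.card_eq_iff_eq_univ, hK, Fintype.card_fin]
        rw [this]
        exact Set.mem_singleton _
      obtain ⟨c, hc⟩ := Submodule.mem_span_singleton.mp (h1 hv)
      exact ⟨c, hc.symm⟩
    obtain ⟨w, Y, hw, hwY⟩ := lev2_pair he hu
    have hwL : w ∈ LieC A := fun n f hf => (hA.1 n f hf).2 w Y hwY
    by_cases hc : c = 0
    · refine ⟨Y, ?_⟩
      have : w = x := by
        apply Subtype.ext
        rw [hw, ← huv, hc, zero_smul, add_zero]
      rwa [← this]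
    · exfalso
      have hoL : o ∈ LieC A := by
        have h1 : o = c⁻¹ • (x - w) := by
          apply Subtype.ext
          show M Finset.univ = c⁻¹ • ((x : CliffordAlgebra Q) - (w : CliffordAlgebra Q))
          rw [← huv, hw, add_sub_cancel_left, smul_smul, inv_mul_cancel₀ hc, one_smul]
        rw [h1]
        exact Submodule.smul_mem _ _ (Submodule.sub_mem _ hx' hwL)
      have h2 := central_skew hE ((hev _).mpr z.2)
        (fun x hx => by
          have h3 := hz1 ⟨x, (hev _).mp hx⟩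
          exact congrArg (fun w : W Q => (w : CliffordAlgebra Q)) h3) hz2
      obtain ⟨a, ha⟩ : ∃ a : ℂ, (z : CliffordAlgebra Q) = a • M Finset.univ := by
        have h1 : Lev M (Module.finrank ℂ T) ≤ Submodule.span ℂ {M Finset.univ} := by
          refine Submodule.span_mono ?_
          rintro x ⟨K, hK, rfl⟩
          have : K = Finset.univ := by
            rw [← Finset.card_eq_iff_eq_univ, hK, Fintype.card_fin]
          rw [this]
          exact Set.mem_singleton _
        obtain ⟨c, hc⟩ := Submodule.mem_span_singleton.mp (h1 h2)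
        exact ⟨c, hc.symm⟩
      have hzo : z = a • o := Subtype.ext ha
      apply hzk
      rw [hzo]
      exact Submodule.smul_mem (LieC A) a hoL n f hf
  · intro H
    constructor
    · obtain ⟨f, x, hf, hb, hx, hk⟩ := Pool.Agent.K1H99.SE.t_CONVE Pool.Agent.K1H28.SE.t_LF1
        Pool.Agent.K1H4.SE.t_FTR Q hQ hd h10
      by_contra hcon
      push Not at hcon
      obtain ⟨Y, hY⟩ := H x (fun n f' hf' => hcon n f' x hf' hx)
      exact hk (hf.2 x Y hY)
    · by_contra hcon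
      push Not at hcon
      obtain ⟨Y, hY⟩ := H o (fun n f' hf' => hcon n f' o hf' hoc)
      exact om_not_pair hd (by omega) he rfl Y hY

end cl

end Pool.Agent.K1H14.SE
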